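import Mathlib
import Pool.Agent.Helper85.OWN.Mink

/-!
# MP_2ea006_lc: one temporal formula is valid in Minkowski space exactly in the dimensions `≤ 3`
-/

set_option autoImplicit false

namespace Pool.Agent.Results.MP_2ea006_lc.OneFormulaAllDimensions

/-- Temporal formulas: atoms, negation, conjunction and the two diamonds `F` (future) and `P`
(past). -/
inductive Formula : Type
  | atom : ℕ → Formula
  | neg : Formula → Formula
  | conj : Formula → Formula → Formula
  | future : Formula → Formula
  | past : Formula → Formula

/-- Truth of a formula at a point of a frame `(W, R)` under a valuation `V`. -/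
def Holds {W : Type} (R : W → W → Prop) (V : ℕ → Set W) : Formula → W → Prop
  | .atom k, w => w ∈ V k
  | .neg a, w => ¬ Holds R V a w
  | .conj a b, w => Holds R V a w ∧ Holds R V b w
  | .future a, w => ∃ v, R w v ∧ Holds R V a v
  | .past a, w => ∃ v, R v w ∧ Holds R V a v

/-- The irreflexive causal order of the Minkowski space with one time coordinate `x 0` and `d`
spatial coordinates: `y 0 - x 0 ≥ √(∑ (y i - x i) ^ 2)` and `x ≠ y`. -/
def Before (d : ℕ) (x y : Fin (d + 1) → ℝ) : Prop :=
  Real.sqrt (∑ i : Fin d, (y i.succ - x i.succ) ^ 2) ≤ y 0 - x 0 ∧ x ≠ y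

/-- The temporal logic of the frame `(ℝ ^ (d + 1), <)`: the formulas which hold at all points
under all valuations. -/
def Logic (d : ℕ) : Set Formula :=
  {a | ∀ (V : ℕ → Set (Fin (d + 1) → ℝ)) (x : Fin (d + 1) → ℝ), Holds (Before d) V a x}

open Pool.Agent.Helper79.Mink Pool.Agent.Helper85.MinkO

/-- translation into the formulas of the proof -/
def un : Formula → Fml
  | .atom k => .atom k
  | .neg a => .neg (un a)
  | .conj a b => .conj (un a) (un b)
  | .future a => .fut (un a)
  | .past a => .past (un a)

/-- translation from the formulas of the proof -/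
def tr : Fml → Formula
  | .atom k => .atom k
  | .neg a => .neg (tr a)
  | .conj a b => .conj (tr a) (tr b)
  | .fut a => .future (tr a)
  | .past a => .past (tr a)

theorem un_tr (a : Fml) : un (tr a) = a := by
  induction a with
  | atom k => rfl
  | neg a ih => rw [tr, un, ih]
  | conj a b iha ihb => rw [tr, un, iha, ihb]
  | fut a ih => rw [tr, un, ih]
  | past a ih => rw [tr, un, ih]

theorem holds_iff {W : Type} (R : W → W → Prop) (V : ℕ → Set W) (a : Formula) :
    ∀ w, Holds R V a w ↔ w ∈ ev R V (un a) := by
  induction a with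
  | atom k => intro w; rfl
  | neg a ih => intro w; rw [Holds, un, mem_neg, ih]
  | conj a b iha ihb => intro w; rw [Holds, un, mem_conj, iha, ihb]
  | future a ih =>
    intro w
    rw [Holds, un, mem_fut]
    exact exists_congr fun v => by rw [ih, and_comm]
  | past a ih =>
    intro w
    rw [Holds, un, mem_past]
    exact exists_congr fun v => by rw [ih, and_comm]

theorem notMem_logic_iff (d : ℕ) (a : Formula) : a ∉ Logic d ↔ SatD d (.neg (un a)) := by
  have h : a ∈ Logic d ↔ ∀ (V : ℕ → Set (Fin (d + 1) → ℝ)) (x : Fin (d + 1) → ℝ),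
      x ∈ ev (Bf d) V (un a) := by
    constructor
    · intro h V x
      exact (holds_iff _ V a x).1 (h V x)
    · intro h V x
      exact (holds_iff _ V a x).2 (h V x)
  rw [h]
  push Not
  rfl

/-- **Positive answer.**  The temporal logics of the Minkowski frames decrease with the
dimension, and one temporal formula is valid in `(ℝ ^ (d + 1), <)` exactly for `d ≤ 2`; so it
is valid in `(ℝ ^ 3, <)` but not in `(ℝ ^ 4, <)`, and the logic of `(ℝ ^ 4, <)` is properly
contained in that of `(ℝ ^ 3, <)`. -/
theorem result : (∀ d e : ℕ, d ≤ e → Logic e ⊆ Logic d) ∧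
    ∃ φ : Formula, ∀ d : ℕ, φ ∈ Logic d ↔ d ≤ 2 := by
  constructor
  · intro d e hde a ha
    by_contra hd
    rw [notMem_logic_iff] at hd
    exact (notMem_logic_iff e a).2 (SatD_mono hde _ hd) ha
  · refine ⟨tr (.neg phi), fun d => ?_⟩
    have h1 : SatD d (.neg (un (tr (.neg phi)))) ↔ SatD d phi := by
      rw [un_tr]
      refine exists_congr fun V => exists_congr fun x => ?_
      rw [mem_neg, mem_neg, not_not]
    rw [← not_iff_not, notMem_logic_iff, h1, SatD_phi]
    omega

end Pool.Agent.Results.MP_2ea006_lc.OneFormulaAllDimensions
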